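import Mathlib
import Pool.Agent.H25.MonoPath

set_option autoImplicit false

universe u

namespace Pool.Agent.Results.MP_ebc4cb_lc.Beth

open Cardinal

/-- `κ` is infinite and every colouring of the pairs of a set of size `κ` with countably many
colours has a monochromatic transfinite path of size `κ`. -/
def InP (κ : Cardinal.{u}) : Prop :=
  ℵ₀ ≤ κ ∧ ∀ X : Type u, #X = κ → ∀ c : Sym2 X → ℕ,
    ∃ (i : ℕ) (V : Set X) (r : V → V → Prop), IsWellOrder V r ∧ #V = κ ∧
      ∀ u v : V, r u v → ∃ w : V, (w = u ∨ r u w) ∧ r w v ∧ c s((w : X), (v : X)) = i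

open Pool.Agent.H25.MonoPath in
theorem result : InP (ℶ_ (Ordinal.omega 2) : Cardinal.{u}) := by
  have e1 : (Order.succ ℵ₀ : Cardinal.{u}) = ℵ_ 1 := succ_aleph0
  have e2 : (Order.succ (ℵ_ 1) : Cardinal.{u}) = ℵ_ 2 := by
    rw [succ_aleph, one_add_one_eq_two]
  have h2 : ∀ κ : Cardinal.{u}, κ.IsStrongLimit → ℵ_ 2 ≤ κ.ord.cof → κ.ord.cof < κ → InP κ := by
    intro κ a1 a2 a3
    refine ⟨a1.aleph0_le, fun X hX c => ?_⟩
    subst hX
    obtain ⟨i, I, i1, i2, g, hg1, hg2, hg3⟩ := main X a1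
      (by rw [e1]; exact Order.succ_le_iff.1 (e2 ▸ a2)) a3 c
    let e := Equiv.ofInjective g hg1
    refine ⟨i, Set.range g, fun x y => e.symm x < e.symm y,
      (RelEmbedding.preimage e.symm.toEmbedding (· < ·)).isWellOrder,
      (mk_congr e.symm).trans hg2, fun x y hxy => ?_⟩
    obtain ⟨w, b1, b2, b3⟩ := hg3 _ _ hxy
    refine ⟨e w, ?_, by simpa using b2, ?_⟩
    · rcases lt_or_eq_of_le b1 with b4 | b4
      · exact Or.inr (by simpa using b4)
      · exact Or.inl (by rw [← b4]; simp)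
    · have b5 : g (e.symm y) = y := congrArg Subtype.val (e.apply_symm_apply y)
      rw [← b5]
      exact b3
  refine h2 _ (isStrongLimit_beth.2 (isSuccLimit_omega 2).isSuccPrelimit) cof_beth.ge ?_
  rw [cof_beth]
  refine lt_of_lt_of_le ?_ (aleph_le_beth _)
  refine aleph_lt_aleph.2 (lt_of_lt_of_le ?_ (Ordinal.omega0_le_omega 2))
  exact_mod_cast Ordinal.natCast_lt_omega0 2

end Pool.Agent.Results.MP_ebc4cb_lc.Beth
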