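import Mathlib
import Pool.Agent.H25.MonoPath

set_option autoImplicit false

universe u

namespace Pool.Agent.Results.MP_ebc4cb_lc.Cofinality

open Cardinal

/-- `κ` is infinite and every colouring of the pairs of a set of size `κ` with countably many
colours has a monochromatic transfinite path of size `κ`. -/
def InP (κ : Cardinal.{u}) : Prop :=
  ℵ₀ ≤ κ ∧ ∀ X : Type u, #X = κ → ∀ c : Sym2 X → ℕ,
    ∃ (i : ℕ) (V : Set X) (r : V → V → Prop), IsWellOrder V r ∧ #V = κ ∧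
      ∀ u v : V, r u v → ∃ w : V, (w = u ∨ r u w) ∧ r w v ∧ c s((w : X), (v : X)) = i

open Pool.Agent.H25.MonoPath in
theorem result (κ : Cardinal.{u}) (h : InP κ) : ℵ_ 2 ≤ κ.ord.cof := by
  have e1 : (Order.succ ℵ₀ : Cardinal.{u}) = ℵ_ 1 := succ_aleph0
  have e2 : (Order.succ (ℵ_ 1) : Cardinal.{u}) = ℵ_ 2 := by
    rw [succ_aleph, one_add_one_eq_two]
  obtain ⟨a1, a2⟩ := h
  by_contra a3
  have a4 : κ.ord.cof ≤ Order.succ ℵ₀ := by
    rw [e1, ← Order.lt_succ_iff, e2]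
    exact not_le.1 a3
  obtain ⟨c, hc⟩ := neg κ.out (by simpa using a1) (by simpa using a4)
  obtain ⟨i, V, r, b1, b2, b3⟩ := a2 κ.out (mk_out κ) c
  have := hc i V r b1 b3
  rw [b2, mk_out] at this
  exact lt_irrefl _ this

end Pool.Agent.Results.MP_ebc4cb_lc.Cofinality
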